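import Mathlib
import Pool.Agent.Lib.MP_ec9af3_lc.H18Red

open Pool.Agent.Lib.MP_ec9af3_lc

/-- Recognizing unit bar visibility graphs is NP-complete under polynomial-time many-one
reductions. -/
theorem Pool.Agent.Results.MP_ec9af3_lc.NPComplete.result :
    N793a5b8e.IsCompleteFor N68a2faeb.NP UBVGLang :=
  isCompleteFor_of_npHard H18.npHard
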